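import Pool.Agent.Y712.WFin

/-!
# The torsion of the Bloch–Kato Selmer groups with divisible coefficients

Let `N₀` and `n` be fixed.  Over all 2-adic representations `V` of dimension `n` of the absolute
Galois group of `ℚ`, unramified outside `N₀`, with a lattice `T` such that `T/2T` is trivial, and
`W = V/T`, the `m`-th roots of the orders of the `2 ^ m`-torsion subgroups of the Selmer groups
`H¹_f(ℚ, W ⊗ χ_t)`, for the twists by the quadratic characters of `ℚ(√D(t))`, have bounded moments,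
in short intervals of `t`, uniformly in `m` and `V`.
-/

set_option autoImplicit false

open NumberField Polynomial Matrix

namespace Pool.Agent.Results.MP_787500_nt.SelmerTorsion

/-- The absolute Galois group of `ℚ`. -/
abbrev GQ : Type := Gal(AlgebraicClosure ℚ/ℚ)

/-- `σ` lies in the decomposition group of the ideal `P` of the ring of all algebraic integers. -/
def InDecomposition (P : Ideal (𝓞 (AlgebraicClosure ℚ))) (σ : GQ) : Prop :=
  ∀ x : 𝓞 (AlgebraicClosure ℚ), σ • x ∈ P ↔ x ∈ P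

/-- `σ` lies in the inertia group of the ideal `P` of the ring of all algebraic integers. -/
def InInertia (P : Ideal (𝓞 (AlgebraicClosure ℚ))) (σ : GQ) : Prop :=
  ∀ x : 𝓞 (AlgebraicClosure ℚ), σ • x - x ∈ P

/-- The representation `ρ` on `T = ℤ₂ⁿ` is continuous, it is trivial on `T/2T`, and it is unramified
at the maximal ideals that do not contain `N₀`. -/
def Admissible {n : ℕ} (N₀ : ℕ) (ρ : GQ →* Matrix (Fin n) (Fin n) ℤ_[2]) : Prop :=
  Continuous ρ ∧ (∀ σ i j, (2 : ℤ_[2]) ∣ (ρ σ - 1) i j) ∧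
    ∀ P : Ideal (𝓞 (AlgebraicClosure ℚ)), P.IsMaximal → (N₀ : 𝓞 (AlgebraicClosure ℚ)) ∉ P →
      ∀ σ, InInertia P σ → ρ σ = 1

open Classical in
/-- The quadratic character `χ_d` of the field `ℚ(√d)`. -/
noncomputable def quadChar (d : ℤ) (σ : GQ) : ℤ :=
  if ∀ s : AlgebraicClosure ℚ, s ^ 2 = (d : AlgebraicClosure ℚ) → σ s = s then 1 else -1

/-- The matrix of the action of `σ` on `T ⊗ χ_d`. -/
noncomputable def twist {n : ℕ} (ρ : GQ →* Matrix (Fin n) (Fin n) ℤ_[2]) (d : ℤ) (σ : GQ) :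
    Matrix (Fin n) (Fin n) ℤ_[2] :=
  (quadChar d σ : ℤ_[2]) • ρ σ

/-- The lattice `T = ℤ₂ⁿ` in `V = ℚ₂ⁿ`. -/
def T (n : ℕ) : AddSubgroup (Fin n → ℚ_[2]) where
  carrier := {x | ∀ i, ‖x i‖ ≤ 1}
  zero_mem' := fun i => by simp
  add_mem' := fun {x y} hx hy i => (Padic.nonarchimedean (x i) (y i)).trans (max_le (hx i) (hy i))
  neg_mem' := fun {x} hx i => by
    rw [Pi.neg_apply, norm_neg]
    exact hx i

/-- The divisible module `W = V/T`, with the quotient topology (which is discrete). -/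
abbrev W (n : ℕ) : Type := (Fin n → ℚ_[2]) ⧸ T n

/-- The action of an integral matrix on `V`. -/
noncomputable def actV {n : ℕ} (M : Matrix (Fin n) (Fin n) ℤ_[2]) :
    (Fin n → ℚ_[2]) →+ (Fin n → ℚ_[2]) where
  toFun x := M.map (fun a => (a : ℚ_[2])) *ᵥ x
  map_zero' := mulVec_zero _
  map_add' x y := mulVec_add _ x y

theorem actV_mem {n : ℕ} (M : Matrix (Fin n) (Fin n) ℤ_[2]) : T n ≤ (T n).comap (actV M) :=
  Pool.Agent.Y712.mv_lat M

/-- The action of an integral matrix on `W`. -/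
noncomputable def actW {n : ℕ} (M : Matrix (Fin n) (Fin n) ℤ_[2]) : W n →+ W n :=
  QuotientAddGroup.map (T n) (T n) (actV M) (actV_mem M)

/-- `F` is (on the decomposition group of `P`) a continuous crossed homomorphism to `V`, on which
`σ` acts by `A σ`, whose restriction to the inertia group is a coboundary: its class is in
`H¹_f(D_P, V)`. -/
def IsFiniteLocal {n : ℕ} (A : GQ → Matrix (Fin n) (Fin n) ℤ_[2])
    (P : Ideal (𝓞 (AlgebraicClosure ℚ))) (F : GQ → Fin n → ℚ_[2]) : Prop :=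
  ContinuousOn F {σ | InDecomposition P σ} ∧
    (∀ σ τ, InDecomposition P σ → InDecomposition P τ → F (σ * τ) = F σ + actV (A σ) (F τ)) ∧
    ∃ v : Fin n → ℚ_[2], ∀ σ, InInertia P σ → F σ = actV (A σ) v - v

/-- `c` is a continuous crossed homomorphism from the Galois group to `W`, on which `σ` acts by
`A σ`, whose class restricted to the decomposition group of every maximal ideal `P` with
`2 N₀ ∉ P` is the image of a class in `H¹_f(D_P, V)`. -/
def IsSelmerCocycle {n : ℕ} (N₀ : ℕ) (A : GQ → Matrix (Fin n) (Fin n) ℤ_[2]) (c : GQ → W n) :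
    Prop :=
  Continuous c ∧ (∀ σ τ, c (σ * τ) = c σ + actW (A σ) (c τ)) ∧
    ∀ P : Ideal (𝓞 (AlgebraicClosure ℚ)), P.IsMaximal →
      ((2 * N₀ : ℕ) : 𝓞 (AlgebraicClosure ℚ)) ∉ P →
      ∃ F, IsFiniteLocal A P F ∧ ∃ w : W n, ∀ σ, InDecomposition P σ →
        c σ = QuotientAddGroup.mk (F σ) + (actW (A σ) w - w)

variable {n : ℕ} {N₀ : ℕ} {A : GQ → Matrix (Fin n) (Fin n) ℤ_[2]}

theorem isSelmerCocycle_iff {c : GQ → W n} :
    IsSelmerCocycle N₀ A c ↔ Pool.Agent.Y712.IsSelW N₀ A c := by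
  constructor
  · rintro ⟨h1, h2, h3⟩
    refine ⟨h1, h2, fun P hP hPN => ?_⟩
    obtain ⟨F, ⟨f1, f2, f3⟩, w, hw⟩ := h3 P hP hPN
    exact ⟨F, f1, f2, f3, w, hw⟩
  · rintro ⟨h1, h2, h3⟩
    refine ⟨h1, h2, fun P hP hPN => ?_⟩
    obtain ⟨F, f1, f2, f3, w, hw⟩ := h3 P hP hPN
    exact ⟨F, ⟨f1, f2, f3⟩, w, hw⟩

theorem IsSelmerCocycle.zero : IsSelmerCocycle N₀ A (0 : GQ → W n) :=
  isSelmerCocycle_iff.2 (Pool.Agent.Y712.IsSelW.zero N₀ A)

theorem IsSelmerCocycle.add {c c' : GQ → W n} (h : IsSelmerCocycle N₀ A c)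
    (h' : IsSelmerCocycle N₀ A c') : IsSelmerCocycle N₀ A (c + c') :=
  isSelmerCocycle_iff.2 ((isSelmerCocycle_iff.1 h).add (isSelmerCocycle_iff.1 h'))

theorem IsSelmerCocycle.neg {c : GQ → W n} (h : IsSelmerCocycle N₀ A c) :
    IsSelmerCocycle N₀ A (-c) :=
  isSelmerCocycle_iff.2 (isSelmerCocycle_iff.1 h).neg

/-- `c` is principal. -/
def IsCoboundary (A : GQ → Matrix (Fin n) (Fin n) ℤ_[2]) (c : GQ → W n) : Prop :=
  ∃ u : W n, ∀ σ, c σ = actW (A σ) u - u

theorem IsCoboundary.zero : IsCoboundary A (0 : GQ → W n) :=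
  (Pool.Agent.Y712.BW A).zero_mem'

theorem IsCoboundary.add {c c' : GQ → W n} (h : IsCoboundary A c) (h' : IsCoboundary A c') :
    IsCoboundary A (c + c') :=
  (Pool.Agent.Y712.BW A).add_mem' h h'

theorem IsCoboundary.neg {c : GQ → W n} (h : IsCoboundary A c) : IsCoboundary A (-c) :=
  (Pool.Agent.Y712.BW A).neg_mem' h

variable (N₀ A)

/-- The group of the crossed homomorphisms that satisfy the local conditions. -/
def selmerCocycles : AddSubgroup (GQ → W n) where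
  carrier := {c | IsSelmerCocycle N₀ A c}
  zero_mem' := IsSelmerCocycle.zero
  add_mem' := IsSelmerCocycle.add
  neg_mem' := IsSelmerCocycle.neg

/-- The group of the principal crossed homomorphisms. -/
def coboundaries : AddSubgroup (GQ → W n) where
  carrier := {c | IsCoboundary A c}
  zero_mem' := IsCoboundary.zero
  add_mem' := IsCoboundary.add
  neg_mem' := IsCoboundary.neg

/-- The Selmer group of `W`, on which `σ` acts by `A σ`: the classes in `H¹(ℚ, W)` that satisfy the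
Bloch–Kato conditions at all primes that do not divide `2 N₀`. -/
def Selmer : Type :=
  selmerCocycles N₀ A ⧸ (coboundaries A).addSubgroupOf (selmerCocycles N₀ A)

noncomputable instance : AddCommGroup (Selmer N₀ A) :=
  QuotientAddGroup.Quotient.addCommGroup _

/-- The elements of the Selmer group killed by `2 ^ m`. -/
def Torsion (m : ℕ) : Type := {x : Selmer N₀ A // 2 ^ m • x = 0}

/-- The integers `t` with `N < t ≤ N + M` and `D(t) ≠ 0`. -/
noncomputable def parameters (D : ℤ[X]) (N : ℤ) (M : ℕ) : Finset ℤ :=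
  (Finset.Ioc N (N + M)).filter (fun t => D.eval t ≠ 0)

theorem result (n N₀ : ℕ) (hN₀ : N₀ ≠ 0) (D : ℤ[X]) (hD : D ≠ 0) (k L : ℕ) :
    ∃ C : ℝ, ∀ (N : ℤ) (M : ℕ), 1 ≤ M → |N| ≤ (M : ℤ) ^ L →
      ∀ ρ : ℤ → (GQ →* Matrix (Fin n) (Fin n) ℤ_[2]), (∀ t, Admissible N₀ (ρ t)) →
        ∀ m : ℕ, 1 ≤ m →
        (∀ t ∈ parameters D N M, Finite (Torsion N₀ (twist (ρ t) (D.eval t)) m)) ∧
        ∑ t ∈ parameters D N M,
          ((Nat.card (Torsion N₀ (twist (ρ t) (D.eval t)) m) : ℝ) ^ ((1 : ℝ) / m)) ^ k ≤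
            C * M := by
  have hgood : ∀ ρ : GQ →* Matrix (Fin n) (Fin n) ℤ_[2], Admissible N₀ ρ →
      Pool.Agent.Y712.Good (fun σ => ρ σ) N₀ := fun ρ hρ =>
    { mul := fun σ τ => map_mul ρ σ τ
      one := map_one ρ
      cont := hρ.1
      ne := hN₀
      ur := hρ.2.2
      res := hρ.2.1 }
  have hZ : ∀ A : GQ → Matrix (Fin n) (Fin n) ℤ_[2],
      selmerCocycles N₀ A = Pool.Agent.Y712.ZW N₀ A := fun A =>
    AddSubgroup.ext fun c => isSelmerCocycle_iff
  have key : ∀ (A : GQ → Matrix (Fin n) (Fin n) ℤ_[2]) (m : ℕ) (J : AddSubgroup (GQ → W n)),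
      J = Pool.Agent.Y712.ZW N₀ A →
      Nonempty ({x : J ⧸ (coboundaries A).addSubgroupOf J // 2 ^ m • x = 0} ≃
        {x : Pool.Agent.Y712.SW N₀ A // 2 ^ m • x = 0}) := by
    intro A m J hJ
    subst hJ
    exact ⟨Equiv.refl _⟩
  obtain ⟨C, hC⟩ := Pool.Agent.Y712.mom_W n hN₀ D hD k L
  refine ⟨C, fun N M hM hN ρ hρ m hm => ?_⟩
  obtain ⟨h1, h2⟩ := hC N M hM hN (fun t σ => ρ t σ) (fun t => hgood _ (hρ t)) m hm
  refine ⟨fun t ht => ?_, le_trans (Finset.sum_le_sum fun t _ => le_of_eq ?_) h2⟩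
  · obtain ⟨E⟩ := key (twist (ρ t) (D.eval t)) m _ (hZ _)
    exact @Finite.of_equiv _ _ (h1 t ht) E.symm
  · obtain ⟨E⟩ := key (twist (ρ t) (D.eval t)) m _ (hZ _)
    exact congrArg (fun z : ℕ => ((z : ℝ) ^ ((1 : ℝ) / m)) ^ k) (Nat.card_congr E)

end Pool.Agent.Results.MP_787500_nt.SelmerTorsion
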